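import Pool.Agent.Lib.MP_1a91b9_nuX.AN.Psi

/-!
# Analysis for `y² = x³ + D`: the value at `1` over `K` as a sum over torsion points
-/

set_option autoImplicit false

namespace Pool.Agent.Lib.MP_1a91b9_nuX.AN

variable [Pool.Agent.Lib.MP_1a91b9_nuT.CD]

open NumberField IsDedekindDomain Module Pool.Agent.Lib.MP_1a91b9_nt Pool.Agent.Lib.MP_1a91b9_nuT
  Pool.Agent.Lib.MP_1a91b9_nuT.S4 Pool.Agent.Lib.MP_1a91b9_nuG

section
variable [HC]

theorem psi_self (I : Ideal (𝓞 K)) : psi K I = ps I := by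
  obtain ⟨g, hg⟩ := (IsPrincipalIdealRing.principal I).principal
  have hg' : I = Ideal.span {g} := hg
  subst hg'
  have h1 : (nK (F := K) g : 𝓞 K) = g := by
    apply RingOfIntegers.ext
    rw [nK_coe, Algebra.norm_self]
    rfl
  rw [psi, relNorm_span, h1]

theorem psbC_self (I : Ideal (𝓞 K)) : psbC K I = (starRingEnd ℂ) (embK (ps I : K)) := by
  rw [psbC, psC, psi_self]

/-- the elements fixed by `ps`: the generators of the ideals prime to `f` -/
def Fx (a : 𝓞 K) : Prop := ps (Ideal.span {a}) = a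

theorem Fx.one : Fx (1 : 𝓞 K) := by
  rw [Fx, Ideal.span_singleton_one, ← Ideal.one_eq_top]
  exact ps_one

theorem Fx.mul {a b : 𝓞 K} (ha : Fx a) (hb : Fx b) : Fx (a * b) := by
  rw [Fx, ← Ideal.span_singleton_mul_span_singleton, ps_mul, ha, hb]


/-- the property depends only on the class modulo `f` -/
theorem Fx.congr {a b : 𝓞 K} (ha : Fx a) (hc : IsCoprime a HC.f) (h : HC.f ∣ b - a) : Fx b := by
  obtain ⟨ε, hε⟩ := exists_eps a hc
  have h1 := hε a (by rw [sub_self]; exact dvd_zero _)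
  have ha0 : a ≠ 0 := by
    rintro rfl
    rw [isCoprime_zero_left] at hc
    exact f_not_isUnit hc
  have h2 : (ε : 𝓞 K) = 1 := by
    refine mul_right_cancel₀ ha0 ?_
    rw [← h1, one_mul]
    exact ha
  have h3 := hε b h
  rwa [h2, one_mul] at h3


theorem fx_ps (I : Ideal (𝓞 K)) (hI : IsCoprime I (Ideal.span {HC.f})) : Fx (ps I) := by
  rw [Fx, span_ps I hI]

theorem Fx.inj {a b : 𝓞 K} (ha : Fx a) (hb : Fx b) (h : Ideal.span {a} = Ideal.span {b}) :
    a = b := by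
  rw [Fx] at ha hb
  rw [← ha, ← hb, h]


end


section
variable [HC] {F : Type*} [Field F] [NumberField F] [Algebra K F]

/-- the Euler factors do not vanish at `1` -/
theorem euler_ne (v : HeightOneSpectrum (𝓞 F)) :
    1 - psbC F v.asIdeal * (Ideal.absNorm v.asIdeal : ℂ) ^ (-(1 : ℂ)) ≠ 0 := by
  intro h
  have h1 : psbC F v.asIdeal * (Ideal.absNorm v.asIdeal : ℂ) ^ (-(1 : ℂ)) = 1 :=
    (sub_eq_zero.1 h).symm
  have hn : 1 < Ideal.absNorm v.asIdeal := by
    have h2 : Ideal.absNorm v.asIdeal ≠ 0 :=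
      Ideal.absNorm_ne_zero_iff_mem_nonZeroDivisors.mpr
        (mem_nonZeroDivisors_iff_ne_zero.mpr v.ne_bot)
    have h3 : Ideal.absNorm v.asIdeal ≠ 1 := fun h3 =>
      v.isPrime.ne_top (Ideal.absNorm_eq_one_iff.mp h3)
    omega
  have hn' : (1 : ℝ) < (Ideal.absNorm v.asIdeal : ℝ) := by exact_mod_cast hn
  have h2 := norm_psbC_le v.asIdeal
  have h3 : ‖psbC F v.asIdeal‖ * ((Ideal.absNorm v.asIdeal : ℝ))⁻¹ = 1 := by
    have h4 := congrArg norm h1
    rw [norm_mul, norm_one, Complex.cpow_neg_one, norm_inv, Complex.norm_natCast] at h4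
    exact h4
  have h4 : (Ideal.absNorm v.asIdeal : ℝ) ^ (1 / 2 : ℝ) < (Ideal.absNorm v.asIdeal : ℝ) := by
    calc (Ideal.absNorm v.asIdeal : ℝ) ^ (1 / 2 : ℝ) < (Ideal.absNorm v.asIdeal : ℝ) ^ (1 : ℝ) :=
          Real.rpow_lt_rpow_of_exponent_lt hn' (by norm_num)
      _ = _ := Real.rpow_one _
  have h5 : ‖psbC F v.asIdeal‖ = (Ideal.absNorm v.asIdeal : ℝ) := by
    have h6 : (Ideal.absNorm v.asIdeal : ℝ) ≠ 0 := by positivity
    field_simp at h3
    exact h3
  rw [h5] at h2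
  exact absurd h2 (not_le.mpr h4)

end

end Pool.Agent.Lib.MP_1a91b9_nuX.AN
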