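import Pool.Agent.Lib.MP_1a91b9_nuX.AN.Step
import Pool.Agent.Lib.MP_1a91b9_nuG.Plug
import Pool.Agent.Lib.MP_1a91b9_nuT.D3.Main

/-!
# Analysis for `y² = x³ + D`: the values of the partial series
-/

set_option autoImplicit false

namespace Pool.Agent.Lib.MP_1a91b9_nuX.AN

variable [Pool.Agent.Lib.MP_1a91b9_nuT.CD]

open NumberField IsDedekindDomain Module Pool.Agent.Lib.MP_1a91b9_nt Pool.Agent.Lib.MP_1a91b9_nuT
  Pool.Agent.Lib.MP_1a91b9_nuT.S4 Pool.Agent.Lib.MP_1a91b9_nuG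


universe u

/-- The dual of the ring of integers is integral away from the different. -/
theorem uq_of_coprime (q : ℕ) (F : Type u) [Field F] [NumberField F] [Algebra K F]
    (h : (Ideal.absNorm (differentIdeal (𝓞 K) (𝓞 F))).Coprime q) : Ell.UQ q F := by
  refine ⟨Ideal.absNorm (differentIdeal (𝓞 K) (𝓞 F)), h, ?_⟩
  intro v hv
  have h1 : (algebraMap (𝓞 F) F) (Ideal.absNorm (differentIdeal (𝓞 K) (𝓞 F)) : 𝓞 F) ∈
      IsLocalization.coeSubmodule F (differentIdeal (𝓞 K) (𝓞 F)) :=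
    Submodule.mem_map_of_mem (Ideal.absNorm_mem _)
  rw [coeSubmodule_differentIdeal (𝓞 K) K, Submodule.mem_div_iff_forall_mul_mem] at h1
  have h2 : v ∈ Submodule.traceDual (𝓞 K) K (1 : Submodule (𝓞 F) F) := by
    rw [Submodule.mem_traceDual]
    intro a ha
    obtain ⟨z, rfl⟩ := Submodule.mem_one.1 ha
    obtain ⟨c, hc⟩ := hv z
    exact ⟨c, by rw [Algebra.traceForm_apply]; exact hc.symm⟩
  obtain ⟨z, hz⟩ := Submodule.mem_one.1 (h1 v h2)
  rw [map_natCast] at hz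
  rw [← hz]
  exact RingOfIntegers.isIntegral_coe z

variable [HC]

theorem up_le (F : Type u) [Field F] [NumberField F] [Algebra K F] (m : Ideal (𝓞 F))
    (hm : m ≤ Ideal.span {up HC.f F}) : ∃ r : ℕ, 3 ≤ r ∧ m ≤ Ideal.span {(r : 𝓞 F)} := by
  obtain ⟨r, hr, hd⟩ := HC.hd.big
  refine ⟨r, hr, hm.trans ?_⟩
  rw [Ideal.span_singleton_le_span_singleton]
  have h := map_dvd (algebraMap (𝓞 K) (𝓞 F)) hd
  rwa [map_natCast] at h

/-- the values of the partial series, for an auxiliary element `ε` -/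
theorem valueProp_eps {ℓ : ℕ} (hℓ : ℓ.Prime) (F : Type u) [Field F] [NumberField F]
    [Algebra K F] (ε : 𝓞 K) (hε : IsCoprime ε (ℓ : 𝓞 K))
    (hε1 : IsCoprime (ε ^ finrank K F - 1) (ℓ : 𝓞 K)) (hU : Ell.UQ ℓ F) :
    ValueProp HC.f ℓ Om F :=
  valueProp_gen hℓ HC.f Om (fun A hA k hk z hz => Ell.d3_mem hℓ A hA k hk z hz) ε hε hε1 hU
    (fun 𝔪 hm u hu => by
      obtain ⟨r, hr, h3⟩ := up_le F 𝔪 hm
      exact un_norm 𝔪 r hr h3 u hu)
    (fun 𝔪 hm u hu k hk huk => by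
      obtain ⟨r, hr, h3⟩ := up_le F 𝔪 hm
      exact un_tors 𝔪 r hr h3 u hu k hk huk)

/-- The values of the partial series exist for suitable auxiliary primes. -/
theorem exists_valueProp (F : Type u) [Field F] [NumberField F] [Algebra K F]
    (m : Ideal (𝓞 F)) (hm : m ≠ 0) :
    ∃ q : ℕ, q.Prime ∧ IsCoprime (HC.f : 𝓞 K) (q : 𝓞 K) ∧
      IsCoprime m (Ideal.span {(q : 𝓞 F)}) ∧ ValueProp HC.f q Om F := by
  have hD : Ideal.absNorm (differentIdeal (𝓞 K) (𝓞 F)) ≠ 0 := by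
    rw [Ne, Ideal.absNorm_eq_zero_iff]
    exact differentIdeal_ne_bot
  have hm' : Ideal.absNorm m ≠ 0 := by
    rw [Ne, Ideal.absNorm_eq_zero_iff]
    exact hm
  have hf' : Ideal.absNorm (Ideal.span {(HC.f : 𝓞 K)}) ≠ 0 := by
    rw [Ne, Ideal.absNorm_eq_zero_iff, Ideal.span_singleton_eq_bot]
    exact f_ne
  have h2n : 2 ^ finrank K F - 1 ≠ 0 := by
    have h0 : 0 < finrank K F := finrank_pos
    have : 2 ^ 1 ≤ 2 ^ finrank K F := Nat.pow_le_pow_right (by norm_num) h0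
    omega
  obtain ⟨q, hq, hqp⟩ := Nat.exists_infinite_primes
    (Ideal.absNorm (differentIdeal (𝓞 K) (𝓞 F)) + Ideal.absNorm m +
      Ideal.absNorm (Ideal.span {(HC.f : 𝓞 K)}) + (2 ^ finrank K F - 1) + 5)
  have hcop : ∀ n : ℕ, n ≠ 0 → n < q → n.Coprime q := by
    intro n h0 hn
    rw [Nat.coprime_comm, Nat.Prime.coprime_iff_not_dvd hqp]
    intro hd
    have := Nat.le_of_dvd (Nat.pos_of_ne_zero h0) hd
    omega
  refine ⟨q, hqp, ?_, ?_, ?_⟩
  · have h := Nat.Coprime.cast (R := 𝓞 K) (hcop _ hf' (by omega))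
    refine h.of_isCoprime_of_dvd_left ?_
    rw [← Ideal.mem_span_singleton]
    exact Ideal.absNorm_mem _
  · have h1 := Nat.isCoprime_iff_coprime.2 (hcop _ hm' (by omega))
    obtain ⟨a, b, hab⟩ := h1
    rw [Ideal.isCoprime_iff_exists]
    refine ⟨(a : 𝓞 F) * (Ideal.absNorm m : 𝓞 F), Ideal.mul_mem_left _ _ (Ideal.absNorm_mem m),
      (b : 𝓞 F) * (q : 𝓞 F), Ideal.mul_mem_left _ _ (Ideal.mem_span_singleton_self _), ?_⟩
    have h2 := congrArg (Int.cast (R := 𝓞 F)) hab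
    push_cast at h2
    exact h2
  · refine valueProp_eps hqp F 2 ?_ ?_ (uq_of_coprime q F (hcop _ hD (by omega)))
    · have h := Nat.Coprime.cast (R := 𝓞 K) (hcop 2 (by norm_num) (by omega))
      exact_mod_cast h
    · have h := Nat.Coprime.cast (R := 𝓞 K) (hcop (2 ^ finrank K F - 1) h2n (by omega))
      rw [Nat.cast_sub Nat.one_le_two_pow] at h
      exact_mod_cast h

end Pool.Agent.Lib.MP_1a91b9_nuX.AN
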