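import Pool.Agent.Lib.MP_1a91b9_nuX.AN.Unfold
import Pool.Agent.Lib.MP_1a91b9_nuG.Cyc

/-!
# G4: the L-series of `ψbar` over a cyclic extension of prime degree
-/

set_option autoImplicit false

namespace Pool.Agent.Lib.MP_1a91b9_nuX.AN

variable [Pool.Agent.Lib.MP_1a91b9_nuT.CD]

open Pool.Agent.Lib.MP_1a91b9_nuT hiding cj
open NumberField IsDedekindDomain Pool.Agent.Lib.MP_1a91b9_nt
  Pool.Agent.Lib.MP_1a91b9_nuT.S4 Pool.Agent.Lib.MP_1a91b9_nuG

universe u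

section
variable {F F' : Type u} [Field F] [NumberField F] [Field F'] [NumberField F'] [Algebra F F']

variable [Algebra K F] [Algebra K F'] [IsScalarTower K F F'] [HC]


/-- `ψ_{F'}` at a place above `v` -/
theorem psi_over (v : HeightOneSpectrum (𝓞 F)) (w : Over F' v) :
    psi F' w.1.asIdeal = psi F v.asIdeal ^ w.1.asIdeal.inertiaDeg (𝓞 F) := by
  have hvm : v.asIdeal.IsMaximal := v.isMaximal
  have hwm : w.1.asIdeal.IsMaximal := w.1.isMaximal
  have i2 : w.1.asIdeal.LiesOver v.asIdeal := ⟨w.2.symm⟩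
  have hst : IsScalarTower (𝓞 K) (𝓞 F) (𝓞 F') := inferInstance
  have h1 : Ideal.relNorm (𝓞 F) w.1.asIdeal = v.asIdeal ^ w.1.asIdeal.inertiaDeg (𝓞 F) :=
    Ideal.relNorm_eq_pow_of_isMaximal w.1.asIdeal v.asIdeal
  have h2 : Ideal.relNorm (𝓞 K) w.1.asIdeal =
      Ideal.relNorm (𝓞 K) (Ideal.relNorm (𝓞 F) w.1.asIdeal) :=
    (Ideal.relNorm_relNorm (𝓞 K) (𝓞 F) w.1.asIdeal).symm
  rw [psi, h2, h1, map_pow, ps_pow]
  rfl


theorem psbC_over (v : HeightOneSpectrum (𝓞 F)) (w : Over F' v) :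
    psbC F' w.1.asIdeal = psbC F v.asIdeal ^ w.1.asIdeal.inertiaDeg (𝓞 F) := by
  rw [psbC, psC, psi_over v w, psbC, psC]
  simp

variable {ℓ : ℕ} [hℓ : Fact ℓ.Prime]


/-- The factorisation of the Euler factor. -/
theorem euler_cyc [IsGalois F F'] (hL : Module.finrank F F' = ℓ)
    (x : HeightOneSpectrum (𝓞 F) → ZMod ℓ) (hx : CFData ℓ F' x) (v : HeightOneSpectrum (𝓞 F))
    (s : ℂ) :
    ∏ w : Over F' v, (1 - psbC F' w.1.asIdeal * (Ideal.absNorm w.1.asIdeal : ℂ) ^ (-s))⁻¹ =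
      (1 - psbC F v.asIdeal * (Ideal.absNorm v.asIdeal : ℂ) ^ (-s))⁻¹ *
      ∏ j ∈ Finset.univ.erase (0 : ZMod ℓ),
        (1 - psbC F v.asIdeal * cj F' x j v * (Ideal.absNorm v.asIdeal : ℂ) ^ (-s))⁻¹ := by
  classical
  have hsplit : ∀ g : ZMod ℓ → ℂ, g 0 * ∏ j ∈ Finset.univ.erase (0 : ZMod ℓ), g j =
      ∏ j, g j := fun g => Finset.mul_prod_erase _ _ (Finset.mem_univ 0)
  rcases cyc_cases hℓ.out hL v with ⟨h0, h1, h2⟩ | ⟨h0, h1, h2⟩ | ⟨h0, h1, h2⟩
  · have hx0 : x v = 0 := (hx.split v h0).mpr h1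
    have hc : ∀ j, cj F' x j v = 1 := by
      intro j
      rw [cj, if_neg h0, hx0, mul_zero, AddChar.map_zero_eq_one]
    simp only [hc, mul_one]
    rw [hsplit (fun _ => (1 - psbC F v.asIdeal * (Ideal.absNorm v.asIdeal : ℂ) ^ (-s))⁻¹)]
    rw [Finset.prod_congr rfl (g := fun _ =>
      (1 - psbC F v.asIdeal * (Ideal.absNorm v.asIdeal : ℂ) ^ (-s))⁻¹)]
    · rw [Finset.prod_const, Finset.prod_const, Finset.card_univ, h1, Finset.card_univ, ZMod.card]
    · intro w _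
      have h3 := (h2 w).2
      rw [nrm_eq, nrm_eq] at h3
      rw [psbC_over v w, (h2 w).1, pow_one, h3]
  · have hx0 : x v ≠ 0 := by
      intro h
      have := (hx.split v h0).mp h
      rw [h1] at this
      exact hℓ.out.one_lt.ne this
    have hc : ∀ j, cj F' x j v = ZMod.stdAddChar (j * x v) := by
      intro j
      rw [cj, if_neg h0]
    have hc0 : cj F' x 0 v = 1 := by
      rw [hc, zero_mul, AddChar.map_zero_eq_one]
    have e1 : (1 - psbC F v.asIdeal * (Ideal.absNorm v.asIdeal : ℂ) ^ (-s))⁻¹ =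
        (1 - psbC F v.asIdeal * cj F' x 0 v * (Ideal.absNorm v.asIdeal : ℂ) ^ (-s))⁻¹ := by
      rw [hc0, mul_one]
    rw [e1, hsplit (fun j => (1 - psbC F v.asIdeal * cj F' x j v *
      (Ideal.absNorm v.asIdeal : ℂ) ^ (-s))⁻¹)]
    have e2 : ∏ j : ZMod ℓ, (1 - psbC F v.asIdeal * cj F' x j v *
        (Ideal.absNorm v.asIdeal : ℂ) ^ (-s)) =
        1 - (psbC F v.asIdeal * (Ideal.absNorm v.asIdeal : ℂ) ^ (-s)) ^ ℓ := by
      rw [← prod_one_sub_mul (x v) hx0]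
      refine Finset.prod_congr rfl fun j _ => ?_
      rw [hc]
      ring
    rw [Finset.prod_inv_distrib (f := fun j => 1 - psbC F v.asIdeal * cj F' x j v *
      (Ideal.absNorm v.asIdeal : ℂ) ^ (-s)), e2]
    rw [Finset.prod_congr rfl (g := fun _ =>
      (1 - (psbC F v.asIdeal * (Ideal.absNorm v.asIdeal : ℂ) ^ (-s)) ^ ℓ)⁻¹)]
    · rw [Finset.prod_const, Finset.card_univ, h1, pow_one]
    · intro w _
      have h3 := (h2 w).2
      rw [nrm_eq, nrm_eq] at h3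
      rw [psbC_over v w, (h2 w).1, h3, mul_pow]
      congr 3
      rw [Nat.cast_pow, ← Complex.natCast_cpow_natCast_mul, Complex.cpow_nat_mul]
  · have hc : ∀ j, cj F' x j v = 0 := by
      intro j
      rw [cj, if_pos h0]
    simp only [hc, mul_zero, zero_mul, sub_zero, inv_one, Finset.prod_const_one, mul_one]
    rw [Finset.prod_congr rfl (g := fun _ =>
      (1 - psbC F v.asIdeal * (Ideal.absNorm v.asIdeal : ℂ) ^ (-s))⁻¹)]
    · rw [Finset.prod_const, Finset.card_univ, h1, pow_one]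
    · intro w _
      have h3 := (h2 w).2
      rw [nrm_eq, nrm_eq] at h3
      rw [psbC_over v w, (h2 w).1, pow_one, h3]

end

section
variable {F F' : Type u} [Field F] [NumberField F] [Field F'] [NumberField F'] [Algebra F F']
  [Algebra K F] [Algebra K F'] [IsScalarTower K F F'] [HC]
  {ℓ : ℕ} [hℓ : Fact ℓ.Prime]

variable (F') in
/-- `ψbar_F χ_j` -/
noncomputable def psChi (x : HeightOneSpectrum (𝓞 F) → ZMod ℓ) (j : ZMod ℓ) (I : Ideal (𝓞 F)) : ℂ :=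
  psbC F I * mulI (cj F' x j) I

omit [NumberField F'] [Algebra K F'] [IsScalarTower K F F'] in

theorem psChi_one (x : HeightOneSpectrum (𝓞 F) → ZMod ℓ) (j : ZMod ℓ) :
    psChi F' x j (1 : Ideal (𝓞 F)) = 1 := by
  rw [psChi, psbC_one, mulI_one, mul_one]

omit [NumberField F'] [Algebra K F'] [IsScalarTower K F F'] in

theorem psChi_mul (x : HeightOneSpectrum (𝓞 F) → ZMod ℓ) (j : ZMod ℓ) (I J : Ideal (𝓞 F)) :
    psChi F' x j (I * J) = psChi F' x j I * psChi F' x j J := by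
  rw [psChi, psbC_mul, mulI_mul, psChi, psChi]
  ring

omit [NumberField F'] [Algebra K F'] [IsScalarTower K F F'] in

theorem norm_psChi_le (x : HeightOneSpectrum (𝓞 F) → ZMod ℓ) (j : ZMod ℓ) (I : Ideal (𝓞 F)) :
    ‖psChi F' x j I‖ ≤ (Ideal.absNorm I : ℝ) ^ (1 / 2 : ℝ) := by
  rw [psChi, norm_mul]
  calc ‖psbC F I‖ * ‖mulI (cj F' x j) I‖ ≤ (Ideal.absNorm I : ℝ) ^ (1 / 2 : ℝ) * 1 :=
        mul_le_mul (norm_psbC_le I) (norm_mulI_cj_le x j I) (norm_nonneg _) (by positivity)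
    _ = _ := mul_one _


/-- `L(ψbar_{F'}, s) = L(ψbar_F, s) ∏ L(ψbar_F χ_j, s)` -/
theorem step_Lf [IsGalois F F'] (hL : Module.finrank F F' = ℓ)
    (x : HeightOneSpectrum (𝓞 F) → ZMod ℓ) (hx : CFData ℓ F' x) (s : ℂ) (hs : 2 < s.re) :
    Lf (psbC F') s = Lf (psbC F) s *
      ∏ j ∈ Finset.univ.erase (0 : ZMod ℓ), Lf (psChi (F := F) F' x j) s := by
  have h1 := (hasProd_Lf (psbC F') (psbC_one F') (psbC_mul F') (1 / 2) (by norm_num)
    norm_psbC_le s (by linarith)).2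
  have h2 := hasProd_over (F := F) (F' := F') _ _ h1
  have h3 := (hasProd_Lf (psbC F) (psbC_one F) (psbC_mul F) (1 / 2) (by norm_num)
    norm_psbC_le s (by linarith)).2
  have h4 : HasProd (fun v : HeightOneSpectrum (𝓞 F) => ∏ j ∈ Finset.univ.erase (0 : ZMod ℓ),
      (1 - psChi (F := F) F' x j v.asIdeal * (Ideal.absNorm v.asIdeal : ℂ) ^ (-s))⁻¹)
      (∏ j ∈ Finset.univ.erase (0 : ZMod ℓ), Lf (psChi (F := F) F' x j) s) :=
    hasProd_prod fun j _ => (hasProd_Lf (psChi (F := F) F' x j) (psChi_one x j)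
      (psChi_mul x j) (1 / 2) (by norm_num) (norm_psChi_le x j) s (by linarith)).2
  refine h2.unique ?_
  have e : (fun v : HeightOneSpectrum (𝓞 F) => ∏ w : Over F' v,
      (1 - psbC F' w.1.asIdeal * (Ideal.absNorm w.1.asIdeal : ℂ) ^ (-s))⁻¹) = fun v =>
      (1 - psbC F v.asIdeal * (Ideal.absNorm v.asIdeal : ℂ) ^ (-s))⁻¹ *
      ∏ j ∈ Finset.univ.erase (0 : ZMod ℓ),
      (1 - psChi (F := F) F' x j v.asIdeal * (Ideal.absNorm v.asIdeal : ℂ) ^ (-s))⁻¹ := by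
    funext v
    rw [euler_cyc hL x hx v s]
    simp only [psChi, mulI_place]
  rw [e]
  exact h3.mul h4

end

end Pool.Agent.Lib.MP_1a91b9_nuX.AN
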